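import Pool.Agent.K6.H9.RJ.Stm

/-!
# Piece COM: in a torsion-free locally nilpotent group elements with commuting powers commute
-/

set_option autoImplicit false

namespace Pool.Agent.K6.H9.RJ

open scoped commutatorElement in
theorem t_COM : S_COM := by
  intro hP G _ htf hln a b n m hn hm hab
  obtain ⟨W, hW⟩ : ∃ W : Subgroup G, W = Subgroup.closure {a, b} := ⟨_, rfl⟩
  have haW : a ∈ W := by rw [hW]; exact Subgroup.subset_closure (by simp)
  have hbW : b ∈ W := by rw [hW]; exact Subgroup.subset_closure (by simp)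
  have hWfg : W.FG := (Subgroup.fg_iff _).2 ⟨{a, b}, hW.symm, Set.toFinite _⟩
  have hnil := hln W hWfg
  have hS : Subgroup.closure ({(⟨a, haW⟩ : W), ⟨b, hbW⟩} : Set W) = ⊤ := by
    have h1 : ({(⟨a, haW⟩ : W), ⟨b, hbW⟩} : Set W) = (fun x : W => (x : G)) ⁻¹' {a, b} := by
      ext ⟨x, hx⟩
      simp [Subtype.ext_iff]
    rw [h1]
    subst hW
    exact Subgroup.closure_closure_coe_preimage
  obtain ⟨M, hM⟩ : ∃ M : Subgroup W, M = Subgroup.closure
    {(⟨a, haW⟩ : W) ^ n, (⟨b, hbW⟩ : W) ^ m} := ⟨_, rfl⟩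
  have hab' : (⟨a, haW⟩ : W) ^ n * (⟨b, hbW⟩ : W) ^ m =
      (⟨b, hbW⟩ : W) ^ m * (⟨a, haW⟩ : W) ^ n := by
    apply Subtype.ext
    simpa using hab
  have hM1 : M.lowerCentralSeries 1 = ⊥ := by
    rw [Subgroup.lowerCentralSeries_succ, Subgroup.lowerCentralSeries_zero,
      Subgroup.commutator_eq_bot_iff_le_centralizer]
    have h1 : ∀ x ∈ ({(⟨a, haW⟩ : W) ^ n, (⟨b, hbW⟩ : W) ^ m} : Set W),
        ∀ y ∈ ({(⟨a, haW⟩ : W) ^ n, (⟨b, hbW⟩ : W) ^ m} : Set W), x * y = y * x := by
      intro x hx y hy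
      simp only [Set.mem_insert_iff, Set.mem_singleton_iff] at hx hy
      rcases hx with rfl | rfl <;> rcases hy with rfl | rfl
      · rfl
      · exact hab'
      · exact hab'.symm
      · rfl
    have h2 : ∀ x ∈ ({(⟨a, haW⟩ : W) ^ n, (⟨b, hbW⟩ : W) ^ m} : Set W),
        ∀ y ∈ M, x * y = y * x := by
      intro x hx y hy
      have h3 : M ≤ Subgroup.centralizer {x} := by
        rw [hM, Subgroup.closure_le]
        intro z hz
        rw [SetLike.mem_coe, Subgroup.mem_centralizer_iff]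
        rintro _ rfl
        exact h1 _ hx z hz
      exact Subgroup.mem_centralizer_iff.1 (h3 hy) x rfl
    nth_rewrite 1 [hM]
    rw [Subgroup.closure_le]
    intro x hx
    rw [SetLike.mem_coe, Subgroup.mem_centralizer_iff]
    intro y hy
    exact (h2 x hx y hy).symm
  have hy : ⁅(⟨a, haW⟩ : W), (⟨b, hbW⟩ : W)⁆ ∈ (⊤ : Subgroup W).lowerCentralSeries 1 := by
    rw [Subgroup.lowerCentralSeries_succ, Subgroup.lowerCentralSeries_zero]
    exact Subgroup.commutator_mem_commutator (Subgroup.mem_top _) (Subgroup.mem_top _)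
  obtain ⟨k, hk, hyk⟩ := hP W hnil M _ hS (by
    intro s hs
    simp only [Set.mem_insert_iff, Set.mem_singleton_iff] at hs
    rcases hs with rfl | rfl
    · exact ⟨n, hn, by rw [hM]; exact Subgroup.subset_closure (by simp)⟩
    · exact ⟨m, hm, by rw [hM]; exact Subgroup.subset_closure (by simp)⟩) 1 _ hy
  rw [hM1, Subgroup.mem_bot] at hyk
  have h5 : (⁅a, b⁆ : G) ^ k = 1 := by
    have := congrArg (fun x : W => (x : G)) hyk
    simpa [commutatorElement_def] using this
  have h6 := htf _ k hk h5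
  rwa [commutatorElement_eq_one_iff_mul_comm] at h6

end Pool.Agent.K6.H9.RJ
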