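import Pool.Agent.K6.H9.RJ.Stm

/-! # Piece IMG: images and subgroups of Baer groups and of locally nilpotent groups -/

set_option autoImplicit false

namespace Pool.Agent.K6.H9.RJ

theorem t_IMG : S_IMG := by
  refine ⟨?_, ?_, ?_⟩
  · intro G H _ _ f hf hG x
    obtain ⟨g, rfl⟩ := hf x
    have h := (hG g).map hf
    rwa [MonoidHom.map_zpowers] at h
  · intro G H _ _ f hf hG K hK
    classical
    obtain ⟨S, hS⟩ := hK
    choose s hs using hf
    let T : Finset G := S.image s
    have hmap : (Subgroup.closure (T : Set G)).map f = K := by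
      rw [MonoidHom.map_closure, ← hS]
      congr 1
      ext x
      simp only [T, Finset.coe_image, Set.image_image, hs, Set.image_id']
    have hnil : Group.IsNilpotent (Subgroup.closure (T : Set G)) := hG _ ⟨T, rfl⟩
    have h2 : Group.IsNilpotent ((Subgroup.closure (T : Set G)).map f) :=
      Group.nilpotent_of_surjective (f.subgroupMap (Subgroup.closure (T : Set G)))
        (f.subgroupMap_surjective _)
    rwa [hmap] at h2
  · intro G H _ _ f hf hH K hK
    classical
    obtain ⟨S, hS⟩ := hK
    have hfg : (K.map f).FG :=
      ⟨S.image f, by rw [Finset.coe_image, ← MonoidHom.map_closure, hS]⟩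
    have h1 : Group.IsNilpotent (K.map f) := hH _ hfg
    exact Group.nilpotent_of_mulEquiv (K.equivMapOfInjective f hf).symm

end Pool.Agent.K6.H9.RJ
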