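import Pool.Agent.K6.H9.RJ.Stm

/-!
# Piece ISO: in a locally nilpotent group the elements with powers in a subgroup form a subgroup
-/

set_option autoImplicit false

namespace Pool.Agent.K6.H9.RJ

namespace ISO

lemma mulMem (hP : S_PWR) (G : Type) [Group G] (hG : LN G) (H : Subgroup G) (a b : G)
    (ha : ∃ n : ℕ, 0 < n ∧ a ^ n ∈ H) (hb : ∃ n : ℕ, 0 < n ∧ b ^ n ∈ H) :
    ∃ n : ℕ, 0 < n ∧ (a * b) ^ n ∈ H := by
  set T : Set G := {a, b} with hT
  set W : Subgroup G := Subgroup.closure T with hW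
  have haW : a ∈ W := Subgroup.subset_closure (by simp [hT])
  have hbW : b ∈ W := Subgroup.subset_closure (by simp [hT])
  have hfg : W.FG := (Subgroup.fg_iff W).2 ⟨T, rfl, by simp [hT]⟩
  have hnil : Group.IsNilpotent W := hG W hfg
  have hcl : Subgroup.closure ((↑) ⁻¹' T : Set W) = ⊤ := Subgroup.closure_closure_coe_preimage
  have hpow : ∀ s ∈ ((↑) ⁻¹' T : Set W), ∃ n : ℕ, 0 < n ∧ s ^ n ∈ H.subgroupOf W := by
    intro s hs
    have hs' : (s : G) = a ∨ (s : G) = b := by simpa [hT] using hs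
    rcases hs' with h | h
    · obtain ⟨n, hn, hm⟩ := ha
      refine ⟨n, hn, ?_⟩
      rw [Subgroup.mem_subgroupOf]
      simpa [h] using hm
    · obtain ⟨n, hn, hm⟩ := hb
      refine ⟨n, hn, ?_⟩
      rw [Subgroup.mem_subgroupOf]
      simpa [h] using hm
  obtain ⟨n, hn, hm⟩ := hP W hnil (H.subgroupOf W) _ hcl hpow 0 (⟨a, haW⟩ * ⟨b, hbW⟩)
    (by simp)
  refine ⟨n, hn, ?_⟩
  have hm' : ((⟨a, haW⟩ : W) * ⟨b, hbW⟩) ^ n ∈ H.subgroupOf W := by simpa using hm
  rw [Subgroup.mem_subgroupOf] at hm'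
  simpa using hm'

end ISO

open ISO in
theorem t_ISO : S_ISO := by
  intro hP G _ hG H
  refine ⟨{ carrier := {g | ∃ n : ℕ, 0 < n ∧ g ^ n ∈ H}
            mul_mem' := ?_
            one_mem' := ⟨1, one_pos, by simp⟩
            inv_mem' := ?_ }, fun g => Iff.rfl⟩
  · intro a b ha hb
    exact mulMem hP G hG H a b ha hb
  · rintro a ⟨n, hn, h⟩
    exact ⟨n, hn, by rw [inv_pow]; exact H.inv_mem h⟩

end Pool.Agent.K6.H9.RJ
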