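import Pool.Agent.K6.H9.RJ.Stm

/-! # Piece NRM (by helper29) -/

set_option autoImplicit false

namespace Pool.Agent.K6.H9.RJ

open scoped commutatorElement

namespace NRM

/-- `⟨k, h⟩` is abelian modulo `J` if `k ∈ J` and `h` normalizes `J` -/
lemma comm_le {G : Type} [Group G] (J : Subgroup G) (k h : G) (hk : k ∈ J)
    (hh : h ∈ Subgroup.normalizer (J : Set G)) :
    ⁅Subgroup.closure {k, h}, Subgroup.closure {k, h}⁆ ≤ J := by
  have hz : ∀ e : ℤ, ∀ j : G, j ∈ J → h ^ e * j * (h ^ e)⁻¹ ∈ J := fun e j hj =>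
    (Subgroup.mem_normalizer_iff.1 (Subgroup.zpow_mem _ hh e) j).1 hj
  have hform : ∀ x ∈ Subgroup.closure {k, h}, ∃ j ∈ J, ∃ e : ℤ, x = j * h ^ e := by
    intro x hx
    induction hx using Subgroup.closure_induction with
    | mem x hx =>
      rcases hx with rfl | hx
      · exact ⟨x, hk, 0, by simp⟩
      · rw [Set.mem_singleton_iff] at hx
        subst hx
        exact ⟨1, J.one_mem, 1, by simp⟩
    | one => exact ⟨1, J.one_mem, 0, by simp⟩
    | mul x y _ _ hx hy =>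
      obtain ⟨j, hj, e, rfl⟩ := hx
      obtain ⟨j', hj', e', rfl⟩ := hy
      refine ⟨j * (h ^ e * j' * (h ^ e)⁻¹), J.mul_mem hj (hz e j' hj'), e + e', ?_⟩
      rw [zpow_add]
      group
    | inv x _ hx =>
      obtain ⟨j, hj, e, rfl⟩ := hx
      refine ⟨h ^ (-e) * j⁻¹ * (h ^ (-e))⁻¹, hz (-e) _ (J.inv_mem hj), -e, ?_⟩
      group
  rw [Subgroup.commutator_le]
  intro x hx y hy
  obtain ⟨j, hj, e, rfl⟩ := hform x hx
  obtain ⟨j', hj', e', rfl⟩ := hform y hy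
  have e1 : ⁅j * h ^ e, j' * h ^ e'⁆ =
      j * (h ^ e * j' * (h ^ e)⁻¹) * (h ^ e' * j⁻¹ * (h ^ e')⁻¹) * j'⁻¹ := by
    rw [commutatorElement_def]
    have e2 : h ^ e * h ^ e' = h ^ e' * h ^ e := by rw [← zpow_add, ← zpow_add, add_comm]
    have e3 : j * h ^ e * (j' * h ^ e') * (j * h ^ e)⁻¹ * (j' * h ^ e')⁻¹ =
        j * (h ^ e * j' * (h ^ e)⁻¹) * ((h ^ e * h ^ e') * (h ^ e)⁻¹ * j⁻¹ * (h ^ e')⁻¹) * j'⁻¹ := by
      group
    rw [e3, e2]
    group
  rw [e1]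
  exact J.mul_mem (J.mul_mem (J.mul_mem hj (hz e j' hj')) (hz e' _ (J.inv_mem hj)))
    (J.inv_mem hj')

end NRM

open NRM in
theorem t_NRM : S_NRM := by
  intro hPWR hISO G _ hLN K L hKL hnorm k l hk hl
  obtain ⟨J, hJ⟩ := hISO G hLN K
  rw [← hJ] at hk ⊢
  obtain ⟨m, hm, hlm⟩ := hl
  -- `l ^ m` normalizes `J`
  have hcon : ∀ h ∈ L, ∀ g ∈ J, h * g * h⁻¹ ∈ J := by
    intro h hh g hg
    obtain ⟨n, hn, hgn⟩ := (hJ g).1 hg
    refine (hJ _).2 ⟨n, hn, ?_⟩
    rw [conj_pow]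
    exact hnorm h hh _ hgn
  have hlN : ∀ g : G, g ∈ J ↔ l ^ m * g * (l ^ m)⁻¹ ∈ J := by
    intro g
    refine ⟨hcon _ hlm g, fun h => ?_⟩
    have h1 := hcon _ (L.inv_mem hlm) _ h
    have e : (l ^ m)⁻¹ * (l ^ m * g * (l ^ m)⁻¹) * ((l ^ m)⁻¹)⁻¹ = g := by group
    rwa [e] at h1
  set W : Subgroup G := Subgroup.closure {k, l} with hW
  have hkW : k ∈ W := Subgroup.subset_closure (by simp)
  have hlW : l ∈ W := Subgroup.subset_closure (by simp)
  have hWfg : W.FG := by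
    classical
    exact ⟨({k, l} : Finset G), by simp [hW]⟩
  have hnil := hLN W hWfg
  set k' : W := ⟨k, hkW⟩ with hk'
  set l' : W := ⟨l, hlW⟩ with hl'
  set J' : Subgroup W := J.comap W.subtype with hJ'
  have h1 : ⁅Subgroup.closure {k', l' ^ m}, Subgroup.closure {k', l' ^ m}⁆ ≤ J' := by
    refine comm_le J' k' (l' ^ m) hk ?_
    rw [Subgroup.mem_normalizer_iff]
    intro g
    exact hlN g
  have h2 := hPWR W hnil (Subgroup.closure {k', l' ^ m}) (Subtype.val ⁻¹' {k, l})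
    (Subgroup.closure_closure_coe_preimage) (by
      intro s hs
      have hs' : (s : G) = k ∨ (s : G) = l := hs
      rcases hs' with h | h
      · refine ⟨1, one_pos, ?_⟩
        rw [pow_one]
        have e : s = k' := Subtype.ext h
        rw [e]
        exact Subgroup.subset_closure (by simp)
      · refine ⟨m, hm, ?_⟩
        have e : s = l' := Subtype.ext h
        rw [e]
        exact Subgroup.subset_closure (by simp)) 1 ⁅l', k'⁆ (by
      exact Subgroup.commutator_mem_commutator (Subgroup.mem_top _) (Subgroup.mem_top _))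
  obtain ⟨n, hn, h3⟩ := h2
  have h4 : (⁅l', k'⁆ ^ n : W) ∈ J' := h1 h3
  have h5 : ⁅l, k⁆ ^ n ∈ J := h4
  obtain ⟨n', hn', h6⟩ := (hJ _).1 h5
  have h7 : ⁅l, k⁆ ∈ J := (hJ _).2 ⟨n * n', Nat.mul_pos hn hn', by rw [pow_mul]; exact h6⟩
  have e : l * k * l⁻¹ = ⁅l, k⁆ * k := by rw [commutatorElement_def]; group
  rw [e]
  exact J.mul_mem h7 hk

end Pool.Agent.K6.H9.RJ
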