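import Pool.Agent.K6.H9.RJ.Stm

/-!
# Piece PW1: multilinearity of commutators on the lower central series
(volunteer piece by helper78 for helper9's call9b)
-/

set_option autoImplicit false

namespace Pool.Agent.K6.H9.RJ

namespace PW1

open Subgroup
open scoped commutatorElement

/-- elements with powers in `B` -/
theorem root {W Q : Type} [Group W] [Group Q] (π : W →* Q) (B : Subgroup Q) (T : Set W)
    (hcomm : ∀ x ∈ closure T, ∀ y ∈ closure T, Commute (π x) (π y))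
    (hT : ∀ t ∈ T, ∃ n : ℕ, 0 < n ∧ (π t) ^ n ∈ B) :
    ∀ y ∈ closure T, ∃ n : ℕ, 0 < n ∧ (π y) ^ n ∈ B := by
  intro y hy
  induction hy using closure_induction with
  | mem x hx => exact hT x hx
  | one => exact ⟨1, Nat.one_pos, by simp⟩
  | mul x y hx hy ihx ihy =>
    obtain ⟨n, hn, hxn⟩ := ihx
    obtain ⟨m, hm, hym⟩ := ihy
    refine ⟨n * m, Nat.mul_pos hn hm, ?_⟩
    rw [map_mul, (hcomm x hx y hy).mul_pow, pow_mul, mul_comm n m, pow_mul]
    exact B.mul_mem (B.pow_mem hxn m) (B.pow_mem hym n)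
  | inv x hx ih =>
    obtain ⟨n, hn, hxn⟩ := ih
    refine ⟨n, hn, ?_⟩
    rw [map_inv, inv_pow]
    exact B.inv_mem hxn

/-- from the quotient back to the group -/
theorem back {W : Type} [Group W] (N : Subgroup W) [N.Normal] (L : Subgroup W) (y : W) (n : ℕ)
    (h : (QuotientGroup.mk' N y) ^ n ∈ L.map (QuotientGroup.mk' N)) :
    ∃ u ∈ L, ∃ z ∈ N, y ^ n = u * z := by
  obtain ⟨u, hu, huy⟩ := h
  refine ⟨u, hu, u⁻¹ * y ^ n, ?_, by group⟩
  rw [← map_pow] at huy
  exact QuotientGroup.eq.mp huy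

/-- `γ_{i+1}` is central modulo `γ_{i+2}` -/
theorem central {W : Type} [Group W] (i : ℕ) (x : W) (hx : x ∈ (⊤ : Subgroup W).lowerCentralSeries i)
    (w : W) : Commute (QuotientGroup.mk' ((⊤ : Subgroup W).lowerCentralSeries (i + 1)) x)
      (QuotientGroup.mk' ((⊤ : Subgroup W).lowerCentralSeries (i + 1)) w) := by
  have h : ⁅x, w⁆ ∈ (⊤ : Subgroup W).lowerCentralSeries (i + 1) :=
    Subgroup.commutator_mem_commutator hx (Subgroup.mem_top w)
  have h2 : QuotientGroup.mk' ((⊤ : Subgroup W).lowerCentralSeries (i + 1)) ⁅x, w⁆ = 1 :=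
    (QuotientGroup.eq_one_iff _).mpr h
  rw [map_commutatorElement] at h2
  exact commutatorElement_eq_one_iff_commute.mp h2

section
variable {W : Type} [Group W] (i : ℕ)


theorem comm_mem (a : W) (ha : a ∈ (⊤ : Subgroup W).lowerCentralSeries i) (g : W) :
    ⁅a, g⁆ ∈ (⊤ : Subgroup W).lowerCentralSeries (i + 1) :=
  Subgroup.commutator_mem_commutator ha (Subgroup.mem_top g)

theorem mulL (a b : W) (_ha : a ∈ (⊤ : Subgroup W).lowerCentralSeries i)
    (hb : b ∈ (⊤ : Subgroup W).lowerCentralSeries i) (g : W) :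
    (QuotientGroup.mk' ((⊤ : Subgroup W).lowerCentralSeries (i + 2))) ⁅a * b, g⁆ = (QuotientGroup.mk' ((⊤ : Subgroup W).lowerCentralSeries (i + 2))) ⁅a, g⁆ * (QuotientGroup.mk' ((⊤ : Subgroup W).lowerCentralSeries (i + 2))) ⁅b, g⁆ := by
  have h1 : ⁅a * b, g⁆ = a * ⁅b, g⁆ * a⁻¹ * ⁅a, g⁆ := by
    simp only [commutatorElement_def]; group
  have h2 := central (i + 1) ⁅b, g⁆ (comm_mem i b hb g)
  rw [h1, map_mul, map_mul, map_mul, ← (h2 a).eq, mul_assoc ((QuotientGroup.mk' ((⊤ : Subgroup W).lowerCentralSeries (i + 2))) ⁅b, g⁆), ← map_mul, mul_inv_cancel,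
    map_one, mul_one]
  exact (h2 ⁅a, g⁆).eq

theorem mulR (a : W) (ha : a ∈ (⊤ : Subgroup W).lowerCentralSeries i) (g h : W) :
    (QuotientGroup.mk' ((⊤ : Subgroup W).lowerCentralSeries (i + 2))) ⁅a, g * h⁆ = (QuotientGroup.mk' ((⊤ : Subgroup W).lowerCentralSeries (i + 2))) ⁅a, g⁆ * (QuotientGroup.mk' ((⊤ : Subgroup W).lowerCentralSeries (i + 2))) ⁅a, h⁆ := by
  have h1 : ⁅a, g * h⁆ = ⁅a, g⁆ * (g * ⁅a, h⁆ * g⁻¹) := by
    simp only [commutatorElement_def]; group
  have h2 := central (i + 1) ⁅a, h⁆ (comm_mem i a ha h)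
  rw [h1, map_mul, map_mul, map_mul, ← (h2 g).eq, mul_assoc ((QuotientGroup.mk' ((⊤ : Subgroup W).lowerCentralSeries (i + 2))) ⁅a, h⁆), ← map_mul, mul_inv_cancel,
    map_one, mul_one]

/-- `g ↦ ⁅a, g⁆` modulo `γ_{i+2}` -/
noncomputable def φ (a : W) (ha : a ∈ (⊤ : Subgroup W).lowerCentralSeries i) :
    W →* W ⧸ (⊤ : Subgroup W).lowerCentralSeries (i + 2) :=
  MonoidHom.mk' (fun g => (QuotientGroup.mk' ((⊤ : Subgroup W).lowerCentralSeries (i + 2))) ⁅a, g⁆) (fun g h => mulR i a ha g h)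

theorem φ_apply (a : W) (ha : a ∈ (⊤ : Subgroup W).lowerCentralSeries i) (g : W) :
    φ i a ha g = (QuotientGroup.mk' ((⊤ : Subgroup W).lowerCentralSeries (i + 2))) ⁅a, g⁆ := rfl

/-- `a ↦ ⁅a, g⁆` modulo `γ_{i+2}` -/
noncomputable def ψ (g : W) :
    (⊤ : Subgroup W).lowerCentralSeries i →* W ⧸ (⊤ : Subgroup W).lowerCentralSeries (i + 2) :=
  MonoidHom.mk' (fun a => (QuotientGroup.mk' ((⊤ : Subgroup W).lowerCentralSeries (i + 2))) ⁅(a : W), g⁆) (fun a b => mulL i (a : W) (b : W) a.2 b.2 g)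

theorem ψ_apply (g : W) (a : (⊤ : Subgroup W).lowerCentralSeries i) :
    ψ i g a = (QuotientGroup.mk' ((⊤ : Subgroup W).lowerCentralSeries (i + 2))) ⁅(a : W), g⁆ := rfl

theorem kill (a : W) (ha : a ∈ (⊤ : Subgroup W).lowerCentralSeries i) (z : W)
    (hz : z ∈ (⊤ : Subgroup W).lowerCentralSeries 1) : (QuotientGroup.mk' ((⊤ : Subgroup W).lowerCentralSeries (i + 2))) ⁅a, z⁆ = 1 := by
  have hle : (⊤ : Subgroup W).lowerCentralSeries 1 ≤ (φ i a ha).ker := by
    rw [Subgroup.lowerCentralSeries_succ, Subgroup.lowerCentralSeries_zero, Subgroup.commutator_le]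
    intro x _ y _
    rw [MonoidHom.mem_ker, map_commutatorElement, commutatorElement_eq_one_iff_commute, φ_apply, φ_apply]
    exact central (i + 1) ⁅a, x⁆ (comm_mem i a ha x) ⁅a, y⁆
  exact hle hz

end

theorem lcs_mono {W : Type} [Group W] (M : Subgroup W) (i : ℕ) :
    M.lowerCentralSeries i ≤ (⊤ : Subgroup W).lowerCentralSeries i := by
  induction i with
  | zero => exact le_top
  | succ i ih =>
    rw [Subgroup.lowerCentralSeries_succ, Subgroup.lowerCentralSeries_succ]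
    exact Subgroup.commutator_mono ih le_top

end PW1

open Subgroup PW1 in
open scoped commutatorElement in
theorem t_PW1 : S_PW1 := by
  intro W _ M S hS hM
  -- level zero
  have h0 : ∀ y : W, ∃ n : ℕ, 0 < n ∧ ∃ u ∈ M, ∃ z ∈ (⊤ : Subgroup W).lowerCentralSeries 1,
      y ^ n = u * z := by
    intro y
    have hy : y ∈ closure S := by rw [hS]; exact mem_top y
    obtain ⟨n, hn, hyn⟩ := root (QuotientGroup.mk' ((⊤ : Subgroup W).lowerCentralSeries 1))
      (M.map (QuotientGroup.mk' ((⊤ : Subgroup W).lowerCentralSeries 1))) S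
      (fun x _ y _ => central 0 x (mem_top x) y)
      (fun t ht => by
        obtain ⟨n, hn, h⟩ := hM t ht
        exact ⟨n, hn, ⟨t ^ n, h, map_pow _ _ _⟩⟩) y hy
    exact ⟨n, hn, back _ M y n hyn⟩
  intro i
  induction i with
  | zero => intro y _; exact h0 y
  | succ i ih =>
    intro y hy
    have hgen : (⊤ : Subgroup W).lowerCentralSeries (i + 1) =
        closure {x | ∃ p ∈ (⊤ : Subgroup W).lowerCentralSeries i, ∃ q ∈ (⊤ : Subgroup W), ⁅p, q⁆ = x} := by
      rfl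
    obtain ⟨n, hn, hyn⟩ := root (QuotientGroup.mk' ((⊤ : Subgroup W).lowerCentralSeries (i + 2)))
      ((M.lowerCentralSeries (i + 1)).map
        (QuotientGroup.mk' ((⊤ : Subgroup W).lowerCentralSeries (i + 2))))
      {x | ∃ p ∈ (⊤ : Subgroup W).lowerCentralSeries i, ∃ q ∈ (⊤ : Subgroup W), ⁅p, q⁆ = x}
      (fun x hx y _ => central (i + 1) x (by rw [hgen]; exact hx) y)
      (by
        rintro t ⟨p, hp, g, -, rfl⟩
        obtain ⟨n, hn, u, hu, z, hz, hpn⟩ := ih p hp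
        obtain ⟨m, hm, h, hh, z', hz', hgm⟩ := h0 g
        refine ⟨n * m, Nat.mul_pos hn hm, ⁅u, h⁆, commutator_mem_commutator hu hh, ?_⟩
        have hu' : u ∈ (⊤ : Subgroup W).lowerCentralSeries i := lcs_mono M i hu
        have hz1 : z ∈ (⊤ : Subgroup W).lowerCentralSeries i :=
          Subgroup.lowerCentralSeries_antitone _ (Nat.le_succ i) hz
        have hpn' : p ^ n ∈ (⊤ : Subgroup W).lowerCentralSeries i := pow_mem hp n
        -- `⁅p, g⁆ ^ (n m) = ⁅p ^ n, g ^ m⁆`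
        have e1 : QuotientGroup.mk' ((⊤ : Subgroup W).lowerCentralSeries (i + 2)) ⁅p ^ n, g ^ m⁆ =
            QuotientGroup.mk' ((⊤ : Subgroup W).lowerCentralSeries (i + 2)) ⁅p, g⁆ ^ (n * m) := by
          have e2 := map_pow (φ i (p ^ n) hpn') g m
          rw [φ_apply, φ_apply] at e2
          have e3 := map_pow (ψ i g) ⟨p, hp⟩ n
          rw [ψ_apply, ψ_apply] at e3
          rw [e2, pow_mul]
          congr 1
        -- `⁅u z, h z'⁆ = ⁅u, h⁆`
        have e4 : QuotientGroup.mk' ((⊤ : Subgroup W).lowerCentralSeries (i + 2)) ⁅u * z, h * z'⁆ =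
            QuotientGroup.mk' ((⊤ : Subgroup W).lowerCentralSeries (i + 2)) ⁅u, h⁆ := by
          rw [mulL i u z hu' hz1, mulR i u hu', kill i u hu' z' hz', mul_one]
          have : QuotientGroup.mk' ((⊤ : Subgroup W).lowerCentralSeries (i + 2)) ⁅z, h * z'⁆ = 1 :=
            (QuotientGroup.eq_one_iff _).mpr
              (commutator_mem_commutator (H₁ := (⊤ : Subgroup W).lowerCentralSeries (i + 1)) hz
                (mem_top _))
          rw [this, mul_one]
        rw [← e1, hpn, hgm, e4])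
      y (by rw [← hgen]; exact hy)
    exact ⟨n, hn, back _ (M.lowerCentralSeries (i + 1)) y n hyn⟩

end Pool.Agent.K6.H9.RJ
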