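import Pool.Agent.K6.H9.RJ.Stm

set_option autoImplicit false

namespace Pool.Agent.K6.H9.RJ

open scoped commutatorElement

namespace PW2

theorem pow_split {W : Type} [Group W] (k m : ℕ) (u z : W)
    (hz : z ∈ (⊤ : Subgroup W).lowerCentralSeries k) :
    (u ^ m * z ^ m)⁻¹ * (u * z) ^ m ∈ (⊤ : Subgroup W).lowerCentralSeries (k + 1) := by
  let N : Subgroup W := (⊤ : Subgroup W).lowerCentralSeries (k + 1)
  have hN : N.Normal := inferInstance
  have h1 : ⁅z, u⁆ ∈ N := Subgroup.commutator_mem_commutator hz (Subgroup.mem_top u)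
  have h2 : ⁅QuotientGroup.mk' N z, QuotientGroup.mk' N u⁆ = 1 := by
    rw [← map_commutatorElement]
    exact (QuotientGroup.eq_one_iff _).2 h1
  have h3 : Commute (QuotientGroup.mk' N u) (QuotientGroup.mk' N z) :=
    (commutatorElement_eq_one_iff_commute.1 h2).symm
  have h4 : QuotientGroup.mk' N (u ^ m * z ^ m) = QuotientGroup.mk' N ((u * z) ^ m) := by
    rw [map_mul, map_pow, map_pow, map_pow, map_mul, h3.mul_pow]
  exact QuotientGroup.eq.1 h4

end PW2

theorem t_PW2 : S_PW2 := by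
  intro h W _ hW M S hS hSM
  have main : ∀ i j : ℕ, ∀ y ∈ (⊤ : Subgroup W).lowerCentralSeries i, ∃ n : ℕ, 0 < n ∧
      ∃ u ∈ M.lowerCentralSeries i, ∃ z ∈ (⊤ : Subgroup W).lowerCentralSeries (i + 1 + j),
        y ^ n = u * z := by
    intro i j
    induction j with
    | zero => exact h W M S hS hSM i
    | succ j ih =>
      intro y hy
      obtain ⟨n, hn, u, hu, z, hz, e⟩ := ih y hy
      obtain ⟨m, hm, u', hu', z', hz', e'⟩ := h W M S hS hSM (i + 1 + j) z hz
      refine ⟨n * m, Nat.mul_pos hn hm, u ^ m * u', mul_mem (pow_mem hu m)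
        (M.lowerCentralSeries_antitone (by omega) hu'), z' * ((u ^ m * z ^ m)⁻¹ * (u * z) ^ m),
        mul_mem hz' (PW2.pow_split (i + 1 + j) m u z hz), ?_⟩
      rw [pow_mul, e, e']
      group
  obtain ⟨N, hN⟩ := Subgroup.nilpotent_iff_lowerCentralSeries.1 hW
  intro i y hy
  obtain ⟨n, hn, u, hu, z, hz, e⟩ := main i N y hy
  have hz1 : z = 1 := by
    have := (⊤ : Subgroup W).lowerCentralSeries_antitone (show N ≤ i + 1 + N by omega) hz
    rw [hN] at this
    exact Subgroup.mem_bot.1 this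
  refine ⟨n, hn, ?_⟩
  rw [e, hz1, mul_one]
  exact hu

end Pool.Agent.K6.H9.RJ
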