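import Pool.Agent.K6.H9.RJ.Stm

/-!
# Piece SUB
-/

set_option autoImplicit false

namespace Pool.Agent.K6.H9.RJ

namespace SUB

/-- the isolators of the members of a subnormal chain of `R` are subnormal -/
theorem chain {G : Type} [Group G] (hLN : LN G) (hI : S_ISOc) (hN : S_NRMc) (R : Subgroup G)
    (hR : ∀ g : G, ∃ n : ℕ, 0 < n ∧ g ^ n ∈ R) (K : Subgroup R) (hK : K.IsSubnormal) :
    ∀ I : Subgroup G, (∀ g : G, g ∈ I ↔ ∃ n : ℕ, 0 < n ∧ g ^ n ∈ K.map R.subtype) →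
      I.IsSubnormal := by
  induction hK with
  | top =>
    intro I h
    have h1 : I = ⊤ := by
      rw [Subgroup.eq_top_iff']
      intro g
      obtain ⟨n, hn, hg⟩ := hR g
      exact (h g).2 ⟨n, hn, ⟨⟨g ^ n, hg⟩, Subgroup.mem_top _, rfl⟩⟩
    rw [h1]
    exact Subgroup.IsSubnormal.top
  | step H K hle _ hnorm ih =>
    intro I h
    obtain ⟨J, hJ⟩ := hI G hLN (K.map R.subtype)
    have hJs := ih J hJ
    have hIJ : I ≤ J := by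
      intro g hg
      obtain ⟨n, hn, hg⟩ := (h g).1 hg
      exact (hJ g).2 ⟨n, hn, Subgroup.map_mono hle hg⟩
    refine Subgroup.IsSubnormal.step I J hIJ hJs ⟨?_⟩
    rintro ⟨k, hkJ⟩ hk ⟨l, hlJ⟩
    rw [Subgroup.mem_subgroupOf] at hk ⊢
    have hk' := (h k).1 hk
    have hl' := (hJ l).1 hlJ
    refine (h _).2 ?_
    refine hN G hLN (H.map R.subtype) (K.map R.subtype) (Subgroup.map_mono hle) ?_ k l hk' hl'
    rintro _ ⟨l', hl', rfl⟩ _ ⟨k', hk', rfl⟩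
    have h2 := hnorm.conj_mem ⟨k', hle hk'⟩ (by rw [Subgroup.mem_subgroupOf]; exact hk') ⟨l', hl'⟩
    rw [Subgroup.mem_subgroupOf] at h2
    exact ⟨l' * k' * l'⁻¹, h2, rfl⟩

end SUB

theorem t_SUB : S_SUB := by
  intro hI hC hN G _ hTF hLN R hR hB x
  obtain ⟨n, hn, hx⟩ := hR x
  have h1 := hB ⟨x ^ n, hx⟩
  obtain ⟨J, hJ⟩ := hI G hLN ((Subgroup.zpowers (⟨x ^ n, hx⟩ : R)).map R.subtype)
  have hJs := SUB.chain hLN hI hN R hR _ h1 J hJ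
  have hmem : ∀ z ∈ (Subgroup.zpowers (⟨x ^ n, hx⟩ : R)).map R.subtype,
      ∃ k : ℤ, z = (x ^ n) ^ k := by
    rintro _ ⟨w, ⟨k, rfl⟩, rfl⟩
    exact ⟨k, rfl⟩
  have hcomm : ∀ a ∈ J, ∀ b ∈ J, a * b = b * a := by
    intro a ha b hb
    obtain ⟨p, hp, hap⟩ := (hJ a).1 ha
    obtain ⟨q, hq, hbq⟩ := (hJ b).1 hb
    obtain ⟨k, hk⟩ := hmem _ hap
    obtain ⟨l, hl⟩ := hmem _ hbq
    refine hC G hTF hLN a b p q hp hq ?_
    rw [hk, hl, ← zpow_add, ← zpow_add, add_comm]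
  have hxJ : x ∈ J := (hJ x).2 ⟨n, hn, ⟨⟨x ^ n, hx⟩, Subgroup.mem_zpowers _, rfl⟩⟩
  have hle : Subgroup.zpowers x ≤ J := by
    rw [Subgroup.zpowers_le]
    exact hxJ
  refine Subgroup.IsSubnormal.step (Subgroup.zpowers x) J hle hJs ⟨?_⟩
  rintro ⟨k, hkJ⟩ hk ⟨l, hlJ⟩
  rw [Subgroup.mem_subgroupOf] at hk ⊢
  have h3 : ((⟨l, hlJ⟩ * ⟨k, hkJ⟩ * ⟨l, hlJ⟩⁻¹ : J) : G) = k := by
    show l * k * l⁻¹ = k
    rw [hcomm l hlJ k hkJ, mul_inv_cancel_right]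
  rw [h3]
  exact hk

end Pool.Agent.K6.H9.RJ
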