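import Pool.Agent.K6.H9.RI.Main
import Pool.Agent.K6.H9.RJ.PW1
import Pool.Agent.K6.H9.RJ.PW2
import Pool.Agent.K6.H9.RJ.ISO
import Pool.Agent.K6.H9.RJ.COM
import Pool.Agent.K6.H9.RJ.NRM
import Pool.Agent.K6.H9.RJ.SUB
import Pool.Agent.K6.H9.RJ.IMG

/-!
# Assembly: isolators of subnormal abelian-by-Baer subgroups in a hereditary radical

The pieces were proved by helper78 (PW1), helper51 (PW2), helper95 (ISO), helper71 (COM),
helper29 (NRM), helper75 (SUB) and helper50 (IMG).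
-/

set_option autoImplicit false

namespace Pool.Agent.K6.H9.RJ.FIN

open Pool.Agent.K6.H9.RI Pool.Agent.K6.H9.RJ

variable {X : ∀ (G : Type) [Group G], Prop}

theorem pwr : S_PWR := t_PW2 t_PW1
theorem iso : S_ISOc := t_ISO pwr
theorem com : S_COMc := t_COM pwr
theorem nrm : S_NRMc := t_NRM pwr iso
theorem sub : S_SUBc := t_SUB iso com nrm

/-- The isolator of a subnormal subgroup is subnormal. -/
lemma sn {G : Type} [Group G] (hG' : LN G) (N : Subgroup G) (hN : N.IsSubnormal) (T : Subgroup G)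
    (hT : ∀ g : G, g ∈ T ↔ ∃ n : ℕ, 0 < n ∧ g ^ n ∈ N) : T.IsSubnormal := by
  refine SUB.chain hG' iso nrm (⊤ : Subgroup G) (fun g => ⟨1, one_pos, Subgroup.mem_top _⟩)
    (N.subgroupOf ⊤) (hN.comap _) T ?_
  intro g
  rw [Subgroup.map_subgroupOf_eq_of_le le_top]
  exact hT g

theorem fin (hX : IsHereditaryRadical X) (G : Type) [Group G]
    (hG : TF G) (hG' : LN G) (N : Subgroup G) (hN : N.IsSubnormal) (hNX : X N)
    (A : Subgroup N) [hAn : A.Normal] (hA : ∀ a ∈ A, ∀ b ∈ A, a * b = b * a) (hGA : Baer (N ⧸ A))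
    (g : G) (n : ℕ) (hn : 0 < n) (hg : g ^ n ∈ N) : g ∈ radical X G := by
  classical
  obtain ⟨hRn, hRX, hRs⟩ := t_RAD X hX G
  have hNR : N ≤ radical X G := by
    intro x hx
    refine (hRs N hN ⟨x, hx⟩).1 ?_
    have h4 : (⊤ : Subgroup N) ≤ radical X N :=
      le_sSup ⟨inferInstance, hX.subgroup _ _ hNX⟩
    exact h4 (Subgroup.mem_top _)
  obtain ⟨T, hT⟩ := iso G hG' N
  obtain ⟨B', hB'⟩ := iso G hG' (A.map N.subtype)
  have hRT : N ≤ T := fun x hx => (hT x).2 ⟨1, one_pos, by rwa [pow_one]⟩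
  have hTn : T.IsSubnormal := sn hG' N hN T hT
  have hA' : A.map N.subtype ≤ N := by
    rintro _ ⟨a, -, rfl⟩
    exact a.2
  have hA'n : ∀ l ∈ N, ∀ k ∈ A.map N.subtype, l * k * l⁻¹ ∈ A.map N.subtype := by
    rintro l hl _ ⟨a, ha, rfl⟩
    exact ⟨_, hAn.conj_mem a ha ⟨l, hl⟩, rfl⟩
  have hA'c : ∀ a ∈ A.map N.subtype, ∀ b ∈ A.map N.subtype, a * b = b * a := by
    rintro _ ⟨a, ha, rfl⟩ _ ⟨b, hb, rfl⟩
    exact congrArg Subtype.val (hA a ha b hb)
  let B : Subgroup T := B'.subgroupOf T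
  have hBn : B.Normal := by
    refine ⟨fun x hx y => ?_⟩
    have hx' : (x : G) ∈ B' := hx
    change (y : G) * x * (y : G)⁻¹ ∈ B'
    exact (hB' _).2 (nrm G hG' _ _ hA' hA'n x y ((hB' _).1 hx') ((hT _).1 y.2))
  have hBc : ∀ a ∈ B, ∀ b ∈ B, a * b = b * a := by
    intro a ha b hb
    obtain ⟨i, hi, hai⟩ := (hB' _).1 (show (a : G) ∈ B' from ha)
    obtain ⟨j, hj, hbj⟩ := (hB' _).1 (show (b : G) ∈ B' from hb)
    exact Subtype.ext (com G hG hG' a b i j hi hj (hA'c _ hai _ hbj))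
  have hTtf : TF T := fun x m hm h => Subtype.ext (hG x m hm (congrArg Subtype.val h))
  have hTln : LN T := t_IMG.2.2 T G T.subtype Subtype.val_injective hG'
  have hQln : LN (T ⧸ B) :=
    t_IMG.2.1 T (T ⧸ B) (QuotientGroup.mk' B) (QuotientGroup.mk'_surjective B) hTln
  have hQtf : TF (T ⧸ B) := by
    intro x m hm h
    obtain ⟨y, rfl⟩ := QuotientGroup.mk'_surjective B x
    rw [← map_pow] at h
    have h1 : y ^ m ∈ B := by
      rw [← QuotientGroup.ker_mk' B]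
      exact h
    obtain ⟨k, hk, hyk⟩ := (hB' _).1 (show ((y ^ m : T) : G) ∈ B' from h1)
    have h2 : y ∈ B := by
      change (y : G) ∈ B'
      refine (hB' _).2 ⟨m * k, Nat.mul_pos hm hk, ?_⟩
      rw [pow_mul]
      exact hyk
    rw [← QuotientGroup.ker_mk' B] at h2
    exact h2
  let φ : N →* T ⧸ B := (QuotientGroup.mk' B).comp (Subgroup.inclusion hRT)
  have hφA : ∀ a ∈ A, φ.rangeRestrict a = 1 := by
    intro a ha
    apply Subtype.ext
    change QuotientGroup.mk' B (Subgroup.inclusion hRT a) = 1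
    have : Subgroup.inclusion hRT a ∈ B := by
      change (a : G) ∈ B'
      exact (hB' _).2 ⟨1, one_pos, by rw [pow_one]; exact ⟨a, ha, rfl⟩⟩
    rw [← QuotientGroup.ker_mk' B] at this
    exact this
  have hR' : Baer φ.range := by
    refine t_IMG.1 (N ⧸ A) φ.range (QuotientGroup.lift A φ.rangeRestrict hφA) ?_ hGA
    intro y
    obtain ⟨x, hx⟩ := φ.rangeRestrict_surjective y
    exact ⟨QuotientGroup.mk x, hx⟩
  have hQB : Baer (T ⧸ B) := by
    refine sub (T ⧸ B) hQtf hQln φ.range ?_ hR'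
    intro x
    obtain ⟨y, rfl⟩ := QuotientGroup.mk'_surjective B x
    obtain ⟨k, hk, hyk⟩ := (hT _).1 y.2
    refine ⟨k, hk, ⟨(y : G) ^ k, hyk⟩, ?_⟩
    change QuotientGroup.mk' B (Subgroup.inclusion hRT ⟨(y : G) ^ k, hyk⟩) = _
    rw [← map_pow]
    rfl
  have hgT : g ∈ T := (hT g).2 ⟨n, hn, hg⟩
  have hTs := hRs T hTn
  have key := MAIN.main hX T hTtf hTln B hBc hQB ⟨g, hgT⟩ n hn ((hTs _).2 (hNR hg))
  exact (hTs _).1 key

end Pool.Agent.K6.H9.RJ.FIN
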