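import Pool.Agent.K6.H9.RJ.Stm

/-!
# Piece PW1 (helper36): powers modulo the lower central series
-/

set_option autoImplicit false

namespace Pool.Agent.K6.H9.RJ

namespace PW1b

open scoped commutatorElement

variable {W : Type} [Group W]

/-- the lower central series -/
abbrev ga (W : Type) [Group W] (i : ℕ) : Subgroup W := (⊤ : Subgroup W).lowerCentralSeries i

/-- some power is in `γ_j(M) γ_(j+1)(W)` -/
def P (M : Subgroup W) (j : ℕ) (y : W) : Prop :=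
  ∃ n : ℕ, 0 < n ∧ ∃ u ∈ M.lowerCentralSeries j, ∃ z ∈ ga W (j + 1), y ^ n = u * z

theorem one_of {j : ℕ} {x : W} (h : x ∈ ga W j) : QuotientGroup.mk' (ga W j) x = 1 :=
  (QuotientGroup.eq_one_iff x).2 h

theorem of_one {j : ℕ} {x : W} (h : QuotientGroup.mk' (ga W j) x = 1) : x ∈ ga W j :=
  (QuotientGroup.eq_one_iff x).1 h

theorem comm_mem {j : ℕ} {a : W} (ha : a ∈ ga W j) (b : W) : ⁅a, b⁆ ∈ ga W (j + 1) :=
  Subgroup.commutator_mem_commutator ha (Subgroup.mem_top b)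

theorem cen {j : ℕ} {a : W} (ha : a ∈ ga W j) (b : W) :
    QuotientGroup.mk' (ga W (j + 1)) a * QuotientGroup.mk' (ga W (j + 1)) b =
      QuotientGroup.mk' (ga W (j + 1)) b * QuotientGroup.mk' (ga W (j + 1)) a := by
  rw [← commutatorElement_eq_one_iff_mul_comm, ← map_commutatorElement]
  exact one_of (comm_mem ha b)

theorem closed (M : Subgroup W) (j : ℕ) (X : Set W) (hX : Subgroup.closure X = ga W j)
    (h : ∀ x ∈ X, P M j x) : ∀ y ∈ ga W j, P M j y := by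
  intro y hy
  rw [← hX] at hy
  induction hy using Subgroup.closure_induction with
  | mem x hx => exact h x hx
  | one => exact ⟨1, one_pos, 1, one_mem _, 1, one_mem _, by simp⟩
  | mul a b ha hb iha ihb =>
    rw [hX] at ha hb
    obtain ⟨n, hn, u, hu, z, hz, e⟩ := iha
    obtain ⟨m, hm, v, hv, w, hw, f⟩ := ihb
    refine ⟨n * m, Nat.mul_pos hn hm, u ^ m * v ^ n, mul_mem (pow_mem hu _) (pow_mem hv _),
      (u ^ m * v ^ n)⁻¹ * (a * b) ^ (n * m), ?_, by group⟩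
    apply of_one
    have hab : Commute (QuotientGroup.mk' (ga W (j + 1)) a) (QuotientGroup.mk' (ga W (j + 1)) b) :=
      cen ha b
    have h1 : QuotientGroup.mk' (ga W (j + 1)) a ^ n = QuotientGroup.mk' (ga W (j + 1)) u := by
      rw [← map_pow, e, map_mul, one_of hz, mul_one]
    have h2 : QuotientGroup.mk' (ga W (j + 1)) b ^ m = QuotientGroup.mk' (ga W (j + 1)) v := by
      rw [← map_pow, f, map_mul, one_of hw, mul_one]
    rw [map_mul, map_inv, map_mul, map_pow, map_pow, map_pow, map_mul, hab.mul_pow]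
    have h3 : QuotientGroup.mk' (ga W (j + 1)) a ^ (n * m) =
        QuotientGroup.mk' (ga W (j + 1)) u ^ m := by rw [pow_mul, h1]
    have h4 : QuotientGroup.mk' (ga W (j + 1)) b ^ (n * m) =
        QuotientGroup.mk' (ga W (j + 1)) v ^ n := by rw [mul_comm n m, pow_mul, h2]
    rw [h3, h4, inv_mul_cancel]
  | inv a ha iha =>
    obtain ⟨n, hn, u, hu, z, hz, e⟩ := iha
    refine ⟨n, hn, u⁻¹, inv_mem hu, u * (a⁻¹) ^ n, ?_, by group⟩
    apply of_one
    have h1 : QuotientGroup.mk' (ga W (j + 1)) a ^ n = QuotientGroup.mk' (ga W (j + 1)) u := by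
      rw [← map_pow, e, map_mul, one_of hz, mul_one]
    rw [map_mul, map_pow, map_inv, inv_pow, h1, mul_inv_cancel]

section bilinear

variable {i : ℕ}

theorem b2 {y : W} (hy : y ∈ ga W i) (g g' : W) :
    QuotientGroup.mk' (ga W (i + 1 + 1)) ⁅y, g * g'⁆ =
      QuotientGroup.mk' (ga W (i + 1 + 1)) ⁅y, g⁆ * QuotientGroup.mk' (ga W (i + 1 + 1)) ⁅y, g'⁆ := by
  have h1 : ⁅y, g * g'⁆ = ⁅y, g⁆ * (g * ⁅y, g'⁆ * g⁻¹) := by
    simp only [commutatorElement_def]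
    group
  have h2 := cen (comm_mem hy g') g
  rw [h1, map_mul, map_mul, map_mul, ← h2, map_inv, mul_assoc (QuotientGroup.mk' _ ⁅y, g'⁆),
    mul_inv_cancel, mul_one]

theorem b1 {y y' : W} (hy : y' ∈ ga W i) (g : W) :
    QuotientGroup.mk' (ga W (i + 1 + 1)) ⁅y * y', g⁆ =
      QuotientGroup.mk' (ga W (i + 1 + 1)) ⁅y', g⁆ * QuotientGroup.mk' (ga W (i + 1 + 1)) ⁅y, g⁆ := by
  have h1 : ⁅y * y', g⁆ = y * ⁅y', g⁆ * y⁻¹ * ⁅y, g⁆ := by
    simp only [commutatorElement_def]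
    group
  have h2 := cen (comm_mem hy g) y
  rw [h1, map_mul, map_mul, map_mul, ← h2, map_inv, mul_assoc (QuotientGroup.mk' _ ⁅y', g⁆),
    mul_inv_cancel, mul_one]

theorem p1 {y : W} (hy : y ∈ ga W i) (g : W) (m : ℕ) :
    QuotientGroup.mk' (ga W (i + 1 + 1)) ⁅y, g ^ m⁆ =
      QuotientGroup.mk' (ga W (i + 1 + 1)) ⁅y, g⁆ ^ m := by
  induction m with
  | zero => rw [pow_zero, pow_zero, commutatorElement_one_right, map_one]
  | succ m ih => rw [pow_succ, b2 hy, ih, pow_succ]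

theorem p2 {y : W} (hy : y ∈ ga W i) (g : W) (n : ℕ) :
    QuotientGroup.mk' (ga W (i + 1 + 1)) ⁅y ^ n, g⁆ =
      QuotientGroup.mk' (ga W (i + 1 + 1)) ⁅y, g⁆ ^ n := by
  induction n with
  | zero => rw [pow_zero, pow_zero, commutatorElement_one_left, map_one]
  | succ n ih => rw [pow_succ, b1 hy, ih, pow_succ']

theorem b4 {y : W} (hy : y ∈ ga W i) {z : W} (hz : z ∈ ga W 1) :
    QuotientGroup.mk' (ga W (i + 1 + 1)) ⁅y, z⁆ = 1 := by
  obtain ⟨φ, hφ⟩ : ∃ φ : W →* W ⧸ ga W (i + 1 + 1), ∀ g,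
      φ g = QuotientGroup.mk' (ga W (i + 1 + 1)) ⁅y, g⁆ :=
    ⟨MonoidHom.mk' (fun g => QuotientGroup.mk' (ga W (i + 1 + 1)) ⁅y, g⁆) (b2 hy), fun g => rfl⟩
  have h1 : ga W 1 ≤ φ.ker := by
    show ⁅(⊤ : Subgroup W), (⊤ : Subgroup W)⁆ ≤ φ.ker
    rw [Subgroup.commutator_le]
    intro a _ b _
    rw [MonoidHom.mem_ker, map_commutatorElement, commutatorElement_eq_one_iff_mul_comm, hφ, hφ]
    exact cen (comm_mem hy a) ⁅y, b⁆
  rw [← hφ]
  exact h1 hz

theorem step (M : Subgroup W) {y g : W} (hy : y ∈ ga W i) (h1 : P M i y) (h2 : P M 0 g) :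
    P M (i + 1) ⁅y, g⁆ := by
  obtain ⟨n, hn, u, hu, z, hz, e⟩ := h1
  obtain ⟨m, hm, h, hh, z', hz', f⟩ := h2
  refine ⟨n * m, Nat.mul_pos hn hm, ⁅u, h⁆, Subgroup.commutator_mem_commutator hu hh,
    ⁅u, h⁆⁻¹ * ⁅y, g⁆ ^ (n * m), ?_, by group⟩
  apply of_one
  have hyn : y ^ n ∈ ga W i := pow_mem hy n
  have hzi : z ∈ ga W i := (⊤ : Subgroup W).lowerCentralSeries_antitone (Nat.le_succ i) hz
  have h3 : QuotientGroup.mk' (ga W (i + 1 + 1)) ⁅y, g⁆ ^ (n * m) =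
      QuotientGroup.mk' (ga W (i + 1 + 1)) ⁅u, h⁆ := by
    rw [pow_mul, ← p2 hy, ← p1 hyn, f, b2 hyn, b4 hyn hz', mul_one, e, b1 hzi,
      one_of (comm_mem hz h), one_mul]
  rw [map_mul, map_inv, map_pow]
  erw [h3]
  exact inv_mul_cancel _

end bilinear

end PW1b

open PW1b in
theorem t_PW1b : S_PW1 := by
  intro W _ M S hS hpow i
  have h0 : ∀ y ∈ ga W 0, P M 0 y := by
    refine closed M 0 S hS fun s hs => ?_
    obtain ⟨n, hn, h⟩ := hpow s hs
    exact ⟨n, hn, s ^ n, h, 1, one_mem _, by rw [mul_one]⟩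
  induction i with
  | zero => exact h0
  | succ i ih =>
    refine closed M (i + 1) _ rfl ?_
    rintro x ⟨p, hp, q, hq, rfl⟩
    exact step M hp (ih p hp) (h0 q (Subgroup.mem_top q))

end Pool.Agent.K6.H9.RJ
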