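import Mathlib

/-!
# Isolators in locally nilpotent groups, and groups whose radical is abelian-by-Baer (MP_f46629_al)

Aim: if `X` is a hereditary radical and `G` is ANY torsion-free locally nilpotent group whose radical
`R = X(G)` has an abelian normal subgroup `A` with `R / A` a Baer group, then `R` is isolated in `G`.
Proof: `T = I(R)` (the isolator) is normal in `G`, `B = I(A)` is abelian and normal in `T`, and `T / B` is
a torsion-free Baer group; so the landed theorem (abelian-by-Baer groups) applies to `T`, and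
`X(T) = T ∩ X(G) = R` is isolated in `T`, so `T = R`.
-/

set_option autoImplicit false

namespace Pool.Agent.K6.H9.RJ

def TF (G : Type) [Group G] : Prop := ∀ (x : G) (n : ℕ), 0 < n → x ^ n = 1 → x = 1

def LN (G : Type) [Group G] : Prop := ∀ H : Subgroup G, H.FG → Group.IsNilpotent H

def Baer (G : Type) [Group G] : Prop := ∀ x : G, (Subgroup.zpowers x).IsSubnormal

/-- **Piece PW1.** Modulo `γ_{i+1}(W)`, elements of `γ_i(W)` have powers in `γ_i(M)`.
Induction on `i`. `i = 0`: `W / [W,W]` is abelian and generated by the elements of `S`. Step: `γ_{i+1}(W)`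
is generated by the `⁅y, g⁆`, `y ∈ γ_i(W)`; modulo `γ_{i+2}(W)` they are central and
`⁅y, g⁆ ^ (n m) = ⁅y ^ n, g ^ m⁆ = ⁅u z, h z'⁆ = ⁅u, h⁆`. -/
def S_PW1 : Prop := ∀ (W : Type) [Group W] (M : Subgroup W) (S : Set W),
  Subgroup.closure S = ⊤ → (∀ s ∈ S, ∃ n : ℕ, 0 < n ∧ s ^ n ∈ M) →
  ∀ i : ℕ, ∀ y ∈ (⊤ : Subgroup W).lowerCentralSeries i, ∃ n : ℕ, 0 < n ∧ ∃ u ∈ M.lowerCentralSeries i, ∃ z ∈ (⊤ : Subgroup W).lowerCentralSeries (i + 1),
    y ^ n = u * z

/-- In a nilpotent group generated by elements with powers in `M`, the elements of `γ_i(W)` have powers in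
`γ_i(M)`. -/
def S_PWR : Prop := ∀ (W : Type) [Group W], Group.IsNilpotent W → ∀ (M : Subgroup W) (S : Set W),
  Subgroup.closure S = ⊤ → (∀ s ∈ S, ∃ n : ℕ, 0 < n ∧ s ^ n ∈ M) →
  ∀ i : ℕ, ∀ y ∈ (⊤ : Subgroup W).lowerCentralSeries i, ∃ n : ℕ, 0 < n ∧ y ^ n ∈ M.lowerCentralSeries i

/-- **Piece PW2.** By induction on `k`: `y ∈ γ_i(W)` has a power in `γ_i(M) γ_k(W)`, `k > i`; in the step
`y ^ n = u z`, `z` is central modulo `γ_{k+1}(W)`, and `z ^ m ∈ γ_k(M) γ_{k+1}(W)`; `γ_k(M) ≤ γ_i(M)`. -/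
def S_PW2 : Prop := S_PW1 → S_PWR

/-- the isolator is a subgroup -/
def S_ISOc : Prop := ∀ (G : Type) [Group G], LN G → ∀ H : Subgroup G,
  ∃ I : Subgroup G, ∀ g : G, g ∈ I ↔ ∃ n : ℕ, 0 < n ∧ g ^ n ∈ H

/-- **Piece ISO.** For `a, b` with powers in `H` use S_PWR (`i = 0`) in `W = ⟨a, b⟩` with `M = ⟨a^n, b^m⟩`. -/
def S_ISO : Prop := S_PWR → S_ISOc

/-- commuting powers -/
def S_COMc : Prop := ∀ (G : Type) [Group G], TF G → LN G → ∀ (a b : G) (n m : ℕ), 0 < n → 0 < m →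
  a ^ n * b ^ m = b ^ m * a ^ n → a * b = b * a

/-- **Piece COM.** S_PWR (`i = 1`) in `W = ⟨a, b⟩` with `M = ⟨a^n, b^m⟩` abelian, so `M.lowerCentralSeries 1 = ⊥`. -/
def S_COM : Prop := S_PWR → S_COMc

/-- normality passes to isolators -/
def S_NRMc : Prop := ∀ (G : Type) [Group G], LN G → ∀ K L : Subgroup G,
  K ≤ L → (∀ l ∈ L, ∀ k ∈ K, l * k * l⁻¹ ∈ K) →
  ∀ k l : G, (∃ n : ℕ, 0 < n ∧ k ^ n ∈ K) → (∃ m : ℕ, 0 < m ∧ l ^ m ∈ L) →
    ∃ r : ℕ, 0 < r ∧ (l * k * l⁻¹) ^ r ∈ K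

/-- **Piece NRM.** Let `J = I(K)` (S_ISOc). `l ^ m` normalizes `K`, so it normalizes `J`. In `W = ⟨k, l⟩`
let `M = ⟨k, l ^ m⟩`; `M / (M ∩ J)` is cyclic, so `M.lowerCentralSeries 1 ≤ J`; by S_PWR (`i = 1`) `⁅l, k⁆` has a
power in `J`, so it is in `J`, and `l k l⁻¹ = ⁅l, k⁆ k`. -/
def S_NRM : Prop := S_PWR → S_ISOc → S_NRMc

/-- a torsion-free locally nilpotent group is Baer if all elements have powers in a Baer subgroup -/
def S_SUBc : Prop := ∀ (G : Type) [Group G], TF G → LN G → ∀ R : Subgroup G,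
  (∀ g : G, ∃ n : ℕ, 0 < n ∧ g ^ n ∈ R) → Baer R → Baer G

/-- **Piece SUB.** For `x` let `x ^ n ∈ R`; `⟨x ^ n⟩` is subnormal in `R`; take isolators (in `G`) of the
members of a subnormal chain (S_ISOc, S_NRMc), so `I(⟨x ^ n⟩)` is subnormal in `I(R) = G`; it is abelian by
S_COMc, so `⟨x⟩` is normal in it. -/
def S_SUB : Prop := S_ISOc → S_COMc → S_NRMc → S_SUBc

/-- **Piece IMG.** Images of Baer groups are Baer groups, and images of locally nilpotent groups and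
subgroups of locally nilpotent groups are locally nilpotent. -/
def S_IMG : Prop :=
  (∀ (G H : Type) [Group G] [Group H] (f : G →* H), Function.Surjective f → Baer G → Baer H) ∧
  (∀ (G H : Type) [Group G] [Group H] (f : G →* H), Function.Surjective f → LN G → LN H) ∧
  (∀ (G H : Type) [Group G] [Group H] (f : G →* H), Function.Injective f → LN H → LN G)

end Pool.Agent.K6.H9.RJ
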